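import Pool.Agent.H.MP_b8847a_al.Main

namespace Pool.Agent.Results.MP_b8847a_al.Q1

open Pool.Agent.H.MP_b27eb5_al

universe u

theorem result (F : Type u) [Field F] [CharZero F] : ∃ T : Set (Fr F),
    (∀ (B : Type u) [NonUnitalNonAssocRing B] [Module F B] [IsScalarTower F B B]
      [SMulCommClass F B B], Sat F B T →
        ∀ x y : B, x * y * x = x * (y * x) ∧ x * x * y * x = x * x * (y * x)) ∧
    LocAdm F T ∧
    (∀ (B : Type u) [NonUnitalNonAssocRing B] [Module F B] [IsScalarTower F B B]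
      [SMulCommClass F B B], Sat F B T → IsSimple F B → IsFld B) ∧
    (∀ (B : Type u) [NonUnitalNonAssocRing B] [Module F B],
      (∀ a b : B, a * b = b * a) → (∀ a b c : B, a * b * c = a * (b * c)) → Sat F B T) ∧
    (∀ (B : Type u) [NonUnitalNonAssocRing B] [Module F B] [IsScalarTower F B B]
      [SMulCommClass F B B], Sat F B T → Sat F (Unitization F B) T) ∧
    ¬ ∃ S : Finset (Fr F), ∀ (B : Type u) [NonUnitalNonAssocRing B] [Module F B]
      [IsScalarTower F B B] [SMulCommClass F B B], Sat F B (S : Set (Fr F)) ↔ Sat F B T := by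
  have h2 : (2 : F) ≠ 0 := two_ne_zero
  refine ⟨H.MP_b8847a_al.Tset F, ?_, H.MP_b8847a_al.locAdm h2, ?_, ?_, ?_,
    H.MP_b8847a_al.not_fb h2⟩
  · intro B _ _ _ _ hB
    exact H.MP_b8847a_al.ncj_of_kok h2 (H.MP_b8847a_al.inW_of_sat hB).1
  · intro B _ _ _ _ hB hs
    exact main h2 (H.MP_b8847a_al.locAdm h2) hB (H.MP_b8847a_al.inW_of_sat hB).1 hs
  · intro B _ _ h h'
    exact H.MP_b8847a_al.sat_of_inW (H.MP_b8847a_al.inW_of_comm h h')
  · intro B _ _ _ _ hB
    exact H.MP_b8847a_al.sat_of_inW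
      (H.MP_b8847a_al.inW_unit (H.MP_b8847a_al.inW_of_sat hB))

end Pool.Agent.Results.MP_b8847a_al.Q1
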